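import Mathlib

set_option autoImplicit false

/-!
Structure of graphs of diameter two, maximum degree at most `3n/5` and few edges.
-/

namespace Pool.Agent.W151.DiamTwo

open Finset

attribute [local instance] Classical.propDecidable

variable {V : Type} [Fintype V]

/-- the set of elements with a property -/
noncomputable def st (p : V → Prop) : Finset V :=
  @Finset.filter V p (fun _ => Classical.propDecidable _) univ

lemma mem_st {p : V → Prop} {u : V} : u ∈ st p ↔ p u := by simp [st]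

/-- neighbours of `v` -/
noncomputable def N (G : SimpleGraph V) (v : V) : Finset V := st (fun u => G.Adj v u)

/-- neighbours of `v` in `H` -/
noncomputable def A (G : SimpleGraph V) (H : Finset V) (v : V) : Finset V :=
  st (fun u => G.Adj v u ∧ u ∈ H)

/-- number of elements with a property -/
noncomputable def cnt (p : V → Prop) : ℕ := (st p).card

/-- indicator -/
noncomputable def ind (p : Prop) : ℕ := @ite ℕ p (Classical.propDecidable _) 1 0

lemma ind_pos {p : Prop} (h : p) : ind p = 1 := by simp [ind, h]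
lemma ind_neg {p : Prop} (h : ¬ p) : ind p = 0 := by simp [ind, h]
lemma ind_le (p : Prop) : ind p ≤ 1 := by
  by_cases h : p
  · rw [ind_pos h]
  · rw [ind_neg h]; omega

lemma cnt_eq (p : V → Prop) : cnt p = ∑ u, ind (p u) := by
  unfold cnt st ind; rw [card_filter]

lemma mem_N {G : SimpleGraph V} {v u : V} : u ∈ N G v ↔ G.Adj v u := by simp [N, mem_st]

lemma mem_A {G : SimpleGraph V} {H : Finset V} {v u : V} :
    u ∈ A G H v ↔ G.Adj v u ∧ u ∈ H := by simp [A, mem_st]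

lemma N_card (G : SimpleGraph V) (v : V) : (N G v).card = ∑ u, ind (G.Adj u v) := by
  rw [← cnt_eq]
  unfold N cnt
  congr 1
  ext u
  simp [mem_st, G.adj_comm]

lemma cnt_mono {p q : V → Prop} (h : ∀ u, p u → q u) : cnt p ≤ cnt q := by
  unfold cnt
  exact card_le_card (fun u hu => by rw [mem_st] at hu ⊢; exact h u hu)

lemma exists_of_cnt_pos {p : V → Prop} (h : 0 < cnt p) : ∃ u, p u := by
  unfold cnt at h
  obtain ⟨u, hu⟩ := card_pos.1 h
  exact ⟨u, mem_st.1 hu⟩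

lemma cnt_or_le (p q : V → Prop) : cnt (fun u => p u ∨ q u) ≤ cnt p + cnt q := by
  rw [cnt_eq, cnt_eq, cnt_eq, ← sum_add_distrib]
  apply sum_le_sum
  intro u _
  by_cases h1 : p u <;> by_cases h2 : q u <;> simp [ind, h1, h2]

/-- the data of the argument -/
structure Data (G : SimpleGraph V) (H : Finset V) (n D M : ℕ) : Prop where
  card : Fintype.card V = n
  npos : 100 ≤ n
  diam : ∀ u v, u = v ∨ G.Adj u v ∨ ∃ w, G.Adj u w ∧ G.Adj w v
  deg : ∀ v, (N G v).card ≤ D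
  D5 : 5 * D ≤ 3 * n
  M1000 : 1000 * M ≤ n
  HM : H.card ≤ M
  B : ∀ v, v ∉ H → cnt (fun u => ∀ h ∈ A G H v, ¬ G.Adj u h) ≤ M
  edges : 2000 * (∑ v ∈ Hᶜ, (A G H v).card) + 1000 * cnt (fun v => v ∉ H ∧ ∃ u, G.Adj v u ∧ u ∉ H)
    ≤ 4802 * n

section
variable {G : SimpleGraph V} {H : Finset V} {n D M : ℕ} (d : Data G H n D M)
include d

lemma card_L : n ≤ (Hᶜ).card + M := by
  have h1 := card_compl H
  have h2 := d.HM
  have h3 := d.card
  omega

lemma two_le {v : V} (hv : v ∉ H) : 2 ≤ (A G H v).card := by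
  have h1 := d.B v hv
  have h2 : n ≤ M + (A G H v).card * D := by
    have h3 : (univ : Finset V) ⊆ st (fun u => ∀ h ∈ A G H v, ¬ G.Adj u h) ∪
        (A G H v).biUnion (fun h => N G h) := by
      intro u _
      rw [mem_union, mem_biUnion, mem_st]
      by_cases hu : ∀ h ∈ A G H v, ¬ G.Adj u h
      · exact Or.inl hu
      · push Not at hu
        obtain ⟨h, hh, hu⟩ := hu
        exact Or.inr ⟨h, hh, mem_N.2 hu.symm⟩
    have h4 := (card_le_card h3).trans (card_union_le _ _)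
    have h5 : ((A G H v).biUnion (fun h => N G h)).card ≤ (A G H v).card * D :=
      card_biUnion_le_card_mul _ _ _ (fun h _ => d.deg h)
    rw [card_univ, d.card] at h4
    unfold cnt at h1
    omega
  by_contra h
  have h6 : (A G H v).card * D ≤ 1 * D := Nat.mul_le_mul_right _ (by omega)
  have h7 := d.D5
  have h8 := d.M1000
  have h9 := d.npos
  omega

/-- the cover property of a pair `{a,b}` -/
lemma cover {v a b : V} (hv : v ∉ H) (h : A G H v = {a, b}) :
    ∑ u, ind (¬ G.Adj u a ∧ ¬ G.Adj u b) ≤ M := by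
  rw [← cnt_eq]
  refine le_trans (cnt_mono ?_) (d.B v hv)
  intro u hu x hx
  rw [h] at hx
  simp at hx
  rcases hx with rfl | rfl
  · exact hu.1
  · exact hu.2

lemma sum_const' (k : ℕ) : ∑ _u : V, k = k * n := by
  rw [sum_const, card_univ, d.card, smul_eq_mul, mul_comm]

lemma no_triangle {v₁ v₂ v₃ a b c : V} (h1 : v₁ ∉ H) (h2 : v₂ ∉ H) (h3 : v₃ ∉ H)
    (e1 : A G H v₁ = {a, b}) (e2 : A G H v₂ = {a, c}) (e3 : A G H v₃ = {b, c}) : False := by
  have c1 := cover d h1 e1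
  have c2 := cover d h2 e2
  have c3 := cover d h3 e3
  have key : 2 * n ≤ (N G a).card + (N G b).card + (N G c).card + 2 * M + 2 * M + 2 * M := by
    have : ∑ _u : V, 2 ≤ ∑ u : V, (ind (G.Adj u a) + ind (G.Adj u b) + ind (G.Adj u c)
        + 2 * ind (¬ G.Adj u a ∧ ¬ G.Adj u b) + 2 * ind (¬ G.Adj u a ∧ ¬ G.Adj u c)
        + 2 * ind (¬ G.Adj u b ∧ ¬ G.Adj u c)) := by
      apply sum_le_sum
      intro u _
      by_cases ha : G.Adj u a <;> by_cases hb : G.Adj u b <;> by_cases hc : G.Adj u c <;>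
        simp [ind, ha, hb, hc]
    simp only [sum_add_distrib, ← mul_sum] at this
    rw [sum_const' d] at this
    rw [N_card, N_card, N_card]
    omega
  have := d.deg a
  have := d.deg b
  have := d.deg c
  have := d.D5
  have := d.M1000
  have := d.npos
  omega

/-- vertices outside `H` with exactly two neighbours in `H` -/
def L2 (G : SimpleGraph V) (H : Finset V) (v : V) : Prop := v ∉ H ∧ (A G H v).card = 2

omit d in
lemma sum_L (f : V → ℕ) : ∑ v ∈ Hᶜ, f v = ∑ v, ind (v ∉ H) * f v := by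
  rw [← sum_filter_add_sum_filter_not univ (fun v => v ∉ H)]
  have h1 : ∑ v ∈ univ.filter (fun v => ¬ v ∉ H), ind (v ∉ H) * f v = 0 := by
    apply sum_eq_zero
    intro v hv
    simp at hv
    rw [ind_neg (by simpa using hv)]; simp
  rw [h1, add_zero]
  apply sum_congr
  · ext v; simp
  · intro v hv
    simp at hv
    rw [ind_pos hv]; simp

lemma card_L' : n ≤ (∑ v, ind (v ∉ H)) + M := by
  have h := card_L d
  have h2 : (Hᶜ).card = ∑ v, ind (v ∉ H) := by
    rw [← cnt_eq]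
    unfold cnt
    congr 1
    ext v; simp [mem_st]
  omega

/-- `|L2|` is large -/
lemma L2_large : 599 * n ≤ 1000 * (∑ v, ind (L2 G H v)) + 3000 * M := by
  have h1 : ∑ v, 3 * ind (v ∉ H) ≤ ∑ v, (ind (v ∉ H) * (A G H v).card + ind (L2 G H v)) := by
    apply sum_le_sum
    intro v _
    by_cases hv : v ∉ H
    · have := two_le d hv
      rw [ind_pos hv]
      by_cases h2 : (A G H v).card = 2
      · rw [ind_pos (p := L2 G H v) ⟨hv, h2⟩, h2]
      · omega
    · rw [ind_neg hv]; omega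
  rw [← mul_sum, sum_add_distrib, ← sum_L] at h1
  have h2 := card_L' d
  have h3 := d.edges
  omega

omit d in
lemma pair_of {u x y : V} (hu : L2 G H u) (hxy : x ≠ y) (hx : x ∈ A G H u) (hy : y ∈ A G H u) :
    A G H u = {x, y} := by
  symm
  apply eq_of_subset_of_card_le
  · intro z hz
    simp at hz
    rcases hz with rfl | rfl <;> assumption
  · rw [hu.2, card_pair hxy]

/-- there is a hub lying in almost all pairs -/
lemma exists_hub : ∃ p ∈ H, (∃ v, L2 G H v ∧ p ∈ A G H v) ∧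
    ∑ v, ind (L2 G H v ∧ p ∉ A G H v) ≤ M := by
  have hL := L2_large d
  have hn := d.npos
  have hM := d.M1000
  have hpos : 0 < ∑ v, ind (L2 G H v) := by omega
  rw [← cnt_eq] at hpos
  obtain ⟨v₀, hv₀⟩ := exists_of_cnt_pos hpos
  obtain ⟨a, b, hab, hAv⟩ := card_eq_two.1 hv₀.2
  have haA : a ∈ A G H v₀ := by rw [hAv]; simp
  have hbA : b ∈ A G H v₀ := by rw [hAv]; simp
  have haH := (mem_A.1 haA).2
  have hbH := (mem_A.1 hbA).2
  have c0 := cover d hv₀.1 hAv
  have key : ∀ p q : V, p ∈ H → q ∈ H → p ∈ A G H v₀ →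
      ∑ u, ind (¬ G.Adj u p ∧ ¬ G.Adj u q) ≤ M →
      (¬ ∃ v, L2 G H v ∧ q ∈ A G H v ∧ p ∉ A G H v) →
      ∃ p ∈ H, (∃ v, L2 G H v ∧ p ∈ A G H v) ∧ ∑ v, ind (L2 G H v ∧ p ∉ A G H v) ≤ M := by
    intro p q hp hq hpA hc hno
    refine ⟨p, hp, ⟨v₀, hv₀, hpA⟩, le_trans ?_ hc⟩
    rw [← cnt_eq, ← cnt_eq]
    apply cnt_mono
    rintro u ⟨hu1, hu2⟩
    refine ⟨fun h => hu2 (mem_A.2 ⟨h, hp⟩), fun h => hno ⟨u, hu1, mem_A.2 ⟨h, hq⟩, hu2⟩⟩
  by_cases h1 : ∃ v, L2 G H v ∧ b ∈ A G H v ∧ a ∉ A G H v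
  swap
  · exact key a b haH hbH haA c0 h1
  by_cases h2 : ∃ v, L2 G H v ∧ a ∈ A G H v ∧ b ∉ A G H v
  swap
  · refine key b a hbH haH hbA ?_ h2
    refine le_trans (le_of_eq ?_) c0
    apply sum_congr rfl
    intro u _
    congr 1
    exact propext and_comm
  exfalso
  obtain ⟨v₁, hv₁, hb1, ha1⟩ := h1
  obtain ⟨v₂, hv₂, ha2, hb2⟩ := h2
  -- A v₁ = {b,k}
  obtain ⟨k, hkb, hk⟩ : ∃ k, k ≠ b ∧ k ∈ A G H v₁ := by
    by_contra hcon
    push Not at hcon
    have : A G H v₁ ⊆ {b} := by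
      intro z hz
      rw [mem_singleton]
      by_contra hzb
      exact hcon z hzb hz
    have := card_le_card this
    rw [hv₁.2, card_singleton] at this
    omega
  obtain ⟨j, hja, hj⟩ : ∃ j, j ≠ a ∧ j ∈ A G H v₂ := by
    by_contra hcon
    push Not at hcon
    have : A G H v₂ ⊆ {a} := by
      intro z hz
      rw [mem_singleton]
      by_contra hzb
      exact hcon z hzb hz
    have := card_le_card this
    rw [hv₂.2, card_singleton] at this
    omega
  have hka : k ≠ a := by rintro rfl; exact ha1 hk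
  have hjb : j ≠ b := by rintro rfl; exact hb2 hj
  have hkH := (mem_A.1 hk).2
  have hjH := (mem_A.1 hj).2
  have e1 : A G H v₁ = {b, k} := pair_of hv₁ hkb.symm hb1 hk
  have e2 : A G H v₂ = {a, j} := pair_of hv₂ hja.symm ha2 hj
  have c1 := cover d hv₁.1 e1
  have c2 := cover d hv₂.1 e2
  have hjk : j ≠ k := by
    rintro rfl
    exact no_triangle d hv₀.1 hv₂.1 hv₁.1 hAv e2 e1
  -- all good L2 vertices are of type {a,b}
  have hall : ∀ u, L2 G H u → (G.Adj u a ∨ G.Adj u b) → (G.Adj u b ∨ G.Adj u k) →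
      (G.Adj u a ∨ G.Adj u j) → (G.Adj u a ∧ G.Adj u b) := by
    intro u hu g0 g1 g2
    by_cases ha : G.Adj u a
    · refine ⟨ha, ?_⟩
      by_contra hb
      have hk' : G.Adj u k := by tauto
      have e3 : A G H u = {a, k} := pair_of hu hka.symm (mem_A.2 ⟨ha, haH⟩) (mem_A.2 ⟨hk', hkH⟩)
      exact no_triangle d hv₀.1 hu.1 hv₁.1 hAv e3 e1
    · exfalso
      have hb : G.Adj u b := by tauto
      have hj' : G.Adj u j := by tauto
      have e3 : A G H u = {b, j} := pair_of hu hjb.symm (mem_A.2 ⟨hb, hbH⟩) (mem_A.2 ⟨hj', hjH⟩)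
      exact no_triangle d hv₀.1 hv₂.1 hu.1 hAv e2 e3
  have hfin : ∑ _u : V, 1 + ∑ u, ind (L2 G H u) ≤ (N G a).card + (N G b).card + 4 * M := by
    have h5 : ∑ u : V, (1 + ind (L2 G H u)) ≤ ∑ u : V, (ind (G.Adj u a) + ind (G.Adj u b)
        + 2 * ind (¬ G.Adj u a ∧ ¬ G.Adj u b) + ind (¬ G.Adj u b ∧ ¬ G.Adj u k)
        + ind (¬ G.Adj u a ∧ ¬ G.Adj u j)) := by
      apply sum_le_sum
      intro u _
      have h6 := hall u
      by_cases hu : L2 G H u <;> by_cases ha : G.Adj u a <;> by_cases hb : G.Adj u b <;>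
        by_cases hk : G.Adj u k <;> by_cases hj : G.Adj u j <;>
        simp [ind, hu, ha, hb, hk, hj] at h6 ⊢
    simp only [sum_add_distrib, ← mul_sum] at h5
    rw [N_card, N_card]
    omega
  rw [sum_const' d] at hfin
  have := d.deg a
  have := d.deg b
  have := d.D5
  omega


lemma S_large (p : V) : n ≤ ∑ u, ind (u ∉ H ∧ ¬ G.Adj u p) + M + D := by
  have h1 : ∑ u, ind (u ∉ H) ≤ ∑ u, (ind (u ∉ H ∧ ¬ G.Adj u p) + ind (G.Adj u p)) := by
    apply sum_le_sum
    intro u _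
    by_cases h1 : u ∉ H <;> by_cases h2 : G.Adj u p <;> simp [ind, h1, h2]
  rw [sum_add_distrib, ← N_card] at h1
  have h2 := card_L' d
  have h3 := d.deg p
  omega

/-- the second elements of pairs `{p, j}` -/
noncomputable def J (G : SimpleGraph V) (H : Finset V) (p : V) : Finset V :=
  st (fun j => j ≠ p ∧ ∃ u, L2 G H u ∧ A G H u = {p, j})

omit d in
lemma mem_J {p j : V} : j ∈ J G H p ↔ (j ≠ p ∧ ∃ u, L2 G H u ∧ A G H u = {p, j}) := by
  simp [J, mem_st]

omit d in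
lemma J_sub {p j : V} (h : j ∈ J G H p) : j ∈ H := by
  obtain ⟨_, u, hu, he⟩ := mem_J.1 h
  have : j ∈ A G H u := by rw [he]; simp
  exact (mem_A.1 this).2

lemma J_cover {p j : V} (h : j ∈ J G H p) :
    ∑ u, ind ((u ∉ H ∧ ¬ G.Adj u p) ∧ ¬ G.Adj u j) ≤ M := by
  obtain ⟨_, u, hu, he⟩ := mem_J.1 h
  refine le_trans ?_ (cover d hu.1 he)
  rw [← cnt_eq, ← cnt_eq]
  exact cnt_mono (fun u h => ⟨h.1.2, h.2⟩)

/-- for a set `T` of elements of `J`, almost all elements of `S` are adjacent to all of `T` -/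
lemma J_covers {p : V} (T : Finset V) (hT : T ⊆ J G H p) :
    ∑ u, ind (u ∉ H ∧ ¬ G.Adj u p) ≤
      ∑ u, ind ((u ∉ H ∧ ¬ G.Adj u p) ∧ T ⊆ A G H u) + T.card * M := by
  have h1 : ∑ u, ind (u ∉ H ∧ ¬ G.Adj u p) ≤
      ∑ u, (ind ((u ∉ H ∧ ¬ G.Adj u p) ∧ T ⊆ A G H u) +
        ∑ j ∈ T, ind ((u ∉ H ∧ ¬ G.Adj u p) ∧ ¬ G.Adj u j)) := by
    apply sum_le_sum
    intro u _
    by_cases h1 : (u ∉ H ∧ ¬ G.Adj u p)
    · by_cases h2 : T ⊆ A G H u
      · rw [ind_pos h1, ind_pos (p := (u ∉ H ∧ ¬ G.Adj u p) ∧ T ⊆ A G H u) ⟨h1, h2⟩]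
        omega
      · rw [Finset.subset_iff] at h2
        push Not at h2
        obtain ⟨j, hj, hjA⟩ := h2
        have h3 : ¬ G.Adj u j := fun h => hjA (mem_A.2 ⟨h, J_sub (hT hj)⟩)
        have h4 : ind ((u ∉ H ∧ ¬ G.Adj u p) ∧ ¬ G.Adj u j) ≤
            ∑ j ∈ T, ind ((u ∉ H ∧ ¬ G.Adj u p) ∧ ¬ G.Adj u j) :=
          single_le_sum (f := fun j => ind ((u ∉ H ∧ ¬ G.Adj u p) ∧ ¬ G.Adj u j))
            (fun _ _ => Nat.zero_le _) hj
        rw [ind_pos (p := (u ∉ H ∧ ¬ G.Adj u p) ∧ ¬ G.Adj u j) ⟨h1, h3⟩] at h4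
        have := ind_le (u ∉ H ∧ ¬ G.Adj u p)
        omega
    · rw [ind_neg h1]; omega
  rw [sum_add_distrib, sum_comm] at h1
  have h2 : ∑ j ∈ T, ∑ u, ind ((u ∉ H ∧ ¬ G.Adj u p) ∧ ¬ G.Adj u j) ≤ ∑ j ∈ T, M :=
    sum_le_sum (fun j hj => J_cover d (hT hj))
  rw [sum_const, smul_eq_mul] at h2
  omega

lemma J_card_le (p : V) : (J G H p).card ≤ 3 := by
  by_contra hcon
  push Not at hcon
  obtain ⟨T, hT, hTc⟩ := exists_subset_card_eq (n := 4) (s := J G H p) (by omega)
  have h1 := J_covers d T hT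
  rw [hTc] at h1
  have h2 := S_large d p
  have h3 : ∑ v, (2 * ind (v ∉ H) + 2 * ind ((v ∉ H ∧ ¬ G.Adj v p) ∧ T ⊆ A G H v)) ≤
      ∑ v, ind (v ∉ H) * (A G H v).card := by
    apply sum_le_sum
    intro v _
    by_cases hv : v ∉ H
    · have h4 := two_le d hv
      rw [ind_pos hv]
      by_cases h5 : (v ∉ H ∧ ¬ G.Adj v p) ∧ T ⊆ A G H v
      · have := card_le_card h5.2
        rw [ind_pos h5]
        omega
      · rw [ind_neg h5]; omega
    · rw [ind_neg hv, ind_neg (fun h => hv h.1.1)]; omega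
  rw [sum_add_distrib, ← mul_sum, ← mul_sum, ← sum_L] at h3
  have h4 := card_L' d
  have h5 := d.edges
  have h6 := d.D5
  have h7 := d.M1000
  have h8 := d.npos
  omega

/-- the number of pairs `{p,j}` -/
lemma t_le {p j : V} (h : j ∈ J G H p) :
    ∑ u, ind (L2 G H u ∧ A G H u = {p, j}) + n ≤ 2 * D + 2 * M := by
  obtain ⟨hjp, _⟩ := mem_J.1 h
  have h1 := J_cover d h
  have h2 := S_large d p
  have h3 : ∑ u, (ind (L2 G H u ∧ A G H u = {p, j}) + ind (u ∉ H ∧ ¬ G.Adj u p)) ≤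
      ∑ u, (ind (G.Adj u j) + ind ((u ∉ H ∧ ¬ G.Adj u p) ∧ ¬ G.Adj u j)) := by
    apply sum_le_sum
    intro u _
    by_cases h4 : L2 G H u ∧ A G H u = {p, j}
    · have h5 : G.Adj u j := by
        have : j ∈ A G H u := by rw [h4.2]; simp
        exact (mem_A.1 this).1
      have h6 : G.Adj u p := by
        have : p ∈ A G H u := by rw [h4.2]; simp
        exact (mem_A.1 this).1
      simp [ind, h5, h6, h4]
    · rw [ind_neg h4]
      by_cases h5 : u ∉ H <;> by_cases h6 : G.Adj u p <;> by_cases h7 : G.Adj u j <;>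
        simp [ind, h5, h6, h7]
  rw [sum_add_distrib, sum_add_distrib, ← N_card] at h3
  have h4 := d.deg j
  omega

omit d in
/-- the pairs containing `p` are the pairs `{p,j}`, `j ∈ J` -/
lemma pairs_le (p : V) : ∑ v, ind (L2 G H v) ≤
    ∑ v, ind (L2 G H v ∧ p ∉ A G H v) + ∑ j ∈ J G H p, ∑ v, ind (L2 G H v ∧ A G H v = {p, j}) := by
  rw [sum_comm, ← sum_add_distrib]
  apply sum_le_sum
  intro v _
  by_cases hv : L2 G H v
  · by_cases h1 : p ∉ A G H v
    · rw [ind_pos hv, ind_pos (p := L2 G H v ∧ p ∉ A G H v) ⟨hv, h1⟩]; omega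
    · push Not at h1
      obtain ⟨j, hjp, hj⟩ : ∃ j, j ≠ p ∧ j ∈ A G H v := by
        by_contra hcon
        push Not at hcon
        have : A G H v ⊆ {p} := by
          intro z hz
          rw [mem_singleton]
          by_contra hzb
          exact hcon z hzb hz
        have := card_le_card this
        rw [hv.2, card_singleton] at this
        omega
      have e := pair_of hv hjp.symm h1 hj
      have hjJ : j ∈ J G H p := mem_J.2 ⟨hjp, v, hv, e⟩
      have h4 : ind (L2 G H v ∧ A G H v = {p, j}) ≤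
          ∑ j ∈ J G H p, ind (L2 G H v ∧ A G H v = {p, j}) :=
        single_le_sum (f := fun j => ind (L2 G H v ∧ A G H v = {p, j}))
          (fun _ _ => Nat.zero_le _) hjJ
      rw [ind_pos (p := L2 G H v ∧ A G H v = {p, j}) ⟨hv, e⟩] at h4
      rw [ind_pos hv]
      omega
  · rw [ind_neg hv]; omega

lemma J_card_ge {p : V} (hM : ∑ v, ind (L2 G H v ∧ p ∉ A G H v) ≤ M) :
    3 ≤ (J G H p).card := by
  by_contra hcon
  have h1 := pairs_le (G := G) (H := H) p
  have h2 : ∑ j ∈ J G H p, ∑ v, ind (L2 G H v ∧ A G H v = {p, j}) ≤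
      ∑ j ∈ J G H p, (2 * D + 2 * M - n) :=
    sum_le_sum (fun j hj => by have := t_le d hj; omega)
  rw [sum_const, smul_eq_mul] at h2
  have h3 := L2_large d
  have h4 : (J G H p).card * (2 * D + 2 * M - n) ≤ 2 * (2 * D + 2 * M - n) :=
    Nat.mul_le_mul_right _ (by omega)
  have h6 := d.D5
  have h7 := d.M1000
  have h8 := d.npos
  omega

/-- few vertices outside `H` have a neighbour outside `H`, and the core sets are large -/
lemma core {p x y z : V} (hM : ∑ v, ind (L2 G H v ∧ p ∉ A G H v) ≤ M)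
    (hxy : x ≠ y) (hxz : x ≠ z) (hyz : y ≠ z) (hJ : J G H p = {x, y, z}) :
    (∀ j ∈ J G H p, cnt (fun v => v ∉ H ∧ ∃ u, G.Adj v u ∧ u ∉ H) + 1 <
      cnt (fun v => v ∉ H ∧ A G H v = {p, j})) ∧
    cnt (fun v => v ∉ H ∧ ∃ u, G.Adj v u ∧ u ∉ H) + 1 <
      cnt (fun v => v ∉ H ∧ A G H v = {x, y, z}) := by
  have hc : (J G H p).card = 3 := by
    rw [hJ]; exact card_eq_three.2 ⟨x, y, z, hxy, hxz, hyz, rfl⟩
  have h1 := pairs_le (G := G) (H := H) p
  have h2 := L2_large d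
  have h6 := d.D5
  have h7 := d.M1000
  have h8 := d.npos
  have h9 := d.edges
  have h10 := card_L' d
  have h11 := S_large d p
  have h12 := J_covers d (J G H p) (Subset.refl _)
  rw [hc] at h12
  -- the main sum
  have h13 : ∑ v, (2 * ind (v ∉ H) + ind ((v ∉ H ∧ ¬ G.Adj v p) ∧ J G H p ⊆ A G H v) +
      ind (((v ∉ H ∧ ¬ G.Adj v p) ∧ J G H p ⊆ A G H v) ∧ ¬ A G H v = {x, y, z})) ≤
      ∑ v, ind (v ∉ H) * (A G H v).card := by
    apply sum_le_sum
    intro v _
    by_cases hv : v ∉ H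
    · have h4 := two_le d hv
      rw [ind_pos hv]
      by_cases h5 : (v ∉ H ∧ ¬ G.Adj v p) ∧ J G H p ⊆ A G H v
      · have h14 := card_le_card h5.2
        rw [hc] at h14
        rw [ind_pos h5]
        by_cases h6 : A G H v = {x, y, z}
        · rw [ind_neg (fun h => h.2 h6)]; omega
        · rw [ind_pos (p := _ ∧ _) ⟨h5, h6⟩]
          have h15 : J G H p ⊂ A G H v := by
            refine ssubset_of_subset_of_ne h5.2 ?_
            intro h; apply h6; rw [← h, hJ]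
          have h16 := card_lt_card h15
          omega
      · rw [ind_neg h5, ind_neg (fun h => h5 h.1)]; omega
    · rw [ind_neg hv, ind_neg (fun h => hv h.1.1), ind_neg (fun h => hv h.1.1.1)]; omega
  rw [sum_add_distrib, sum_add_distrib, ← mul_sum, ← sum_L] at h13
  have h14 : ∑ v, ind ((v ∉ H ∧ ¬ G.Adj v p) ∧ J G H p ⊆ A G H v) ≤
      ∑ v, (ind (v ∉ H ∧ A G H v = {x, y, z}) +
        ind (((v ∉ H ∧ ¬ G.Adj v p) ∧ J G H p ⊆ A G H v) ∧ ¬ A G H v = {x, y, z})) := by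
    apply sum_le_sum
    intro v _
    by_cases h5 : (v ∉ H ∧ ¬ G.Adj v p) ∧ J G H p ⊆ A G H v
    · by_cases h6 : A G H v = {x, y, z}
      · rw [ind_pos h5, ind_pos (p := v ∉ H ∧ A G H v = {x, y, z}) ⟨h5.1.1, h6⟩]; omega
      · rw [ind_pos h5, ind_pos (p := _ ∧ ¬ A G H v = {x, y, z}) ⟨h5, h6⟩]; omega
    · rw [ind_neg h5]; omega
  rw [sum_add_distrib, ← cnt_eq (fun v => v ∉ H ∧ A G H v = {x, y, z})] at h14
  constructor
  · intro j hj
    have h15 : ∑ i ∈ (J G H p).erase j, ∑ v, ind (L2 G H v ∧ A G H v = {p, i}) ≤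
        ∑ i ∈ (J G H p).erase j, (2 * D + 2 * M - n) :=
      sum_le_sum (fun i hi => by
        have := t_le d (mem_of_mem_erase hi); omega)
    rw [sum_const, smul_eq_mul, card_erase_of_mem hj, hc] at h15
    have h16 := add_sum_erase (J G H p) (fun i => ∑ v, ind (L2 G H v ∧ A G H v = {p, i})) hj
    have h17 : ∑ v, ind (L2 G H v ∧ A G H v = {p, j}) ≤
        cnt (fun v => v ∉ H ∧ A G H v = {p, j}) := by
      rw [← cnt_eq]
      exact cnt_mono (fun v hv => ⟨hv.1.1, hv.2⟩)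
    omega
  · omega


/-- every vertex outside a core hub set is adjacent to one of its hubs -/
lemma meets {T : Finset V} (hT : cnt (fun v => v ∉ H ∧ ∃ u, G.Adj v u ∧ u ∉ H) + 1 <
      cnt (fun v => v ∉ H ∧ A G H v = T)) {w : V} (hw : w ∉ T) : ∃ h ∈ T, G.Adj w h := by
  by_contra hcon
  push Not at hcon
  have h1 : st (fun v => v ∉ H ∧ A G H v = T) ⊆
      insert w (st (fun v => v ∉ H ∧ ∃ u, G.Adj v u ∧ u ∉ H)) := by
    intro v hv
    obtain ⟨hvH, hvA⟩ := mem_st.1 hv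
    rw [mem_insert, mem_st]
    rcases d.diam w v with h | h | ⟨u, h1, h2⟩
    · exact Or.inl h.symm
    · refine Or.inr ⟨hvH, w, h.symm, ?_⟩
      intro hwH
      exact hw (hvA ▸ mem_A.2 ⟨h.symm, hwH⟩)
    · refine Or.inr ⟨hvH, u, h2.symm, ?_⟩
      intro huH
      exact hcon u (hvA ▸ mem_A.2 ⟨h2.symm, huH⟩) h1
  have h2 := (card_le_card h1).trans (card_insert_le _ _)
  unfold cnt at hT
  omega

/-- the conclusion -/
theorem contradiction (hD : 5 * D + 4 ≤ 3 * n) : False := by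
  obtain ⟨p, hp, ⟨v₀, hv₀, hpv⟩, hM⟩ := exists_hub d
  have hJ3 : (J G H p).card = 3 := le_antisymm (J_card_le d p) (J_card_ge d hM)
  obtain ⟨x, y, z, hxy, hxz, hyz, hJ⟩ := card_eq_three.1 hJ3
  obtain ⟨hc1, hc0⟩ := core d hM hxy hxz hyz hJ
  have hxJ : x ∈ J G H p := by rw [hJ]; simp
  have hyJ : y ∈ J G H p := by rw [hJ]; simp
  have hzJ : z ∈ J G H p := by rw [hJ]; simp
  have hxp := (mem_J.1 hxJ).1
  have hyp := (mem_J.1 hyJ).1
  have hzp := (mem_J.1 hzJ).1
  have mx : ∀ w, w ≠ p → w ≠ x → (G.Adj w p ∨ G.Adj w x) := by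
    intro w h1 h2
    obtain ⟨h, hh, ha⟩ := meets d (hc1 x hxJ) (w := w) (by simp [h1, h2])
    simp at hh
    rcases hh with rfl | rfl
    · exact Or.inl ha
    · exact Or.inr ha
  have my : ∀ w, w ≠ p → w ≠ y → (G.Adj w p ∨ G.Adj w y) := by
    intro w h1 h2
    obtain ⟨h, hh, ha⟩ := meets d (hc1 y hyJ) (w := w) (by simp [h1, h2])
    simp at hh
    rcases hh with rfl | rfl
    · exact Or.inl ha
    · exact Or.inr ha
  have mz : ∀ w, w ≠ p → w ≠ z → (G.Adj w p ∨ G.Adj w z) := by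
    intro w h1 h2
    obtain ⟨h, hh, ha⟩ := meets d (hc1 z hzJ) (w := w) (by simp [h1, h2])
    simp at hh
    rcases hh with rfl | rfl
    · exact Or.inl ha
    · exact Or.inr ha
  have m0 : ∀ w, w ≠ x → w ≠ y → w ≠ z → (G.Adj w x ∨ G.Adj w y ∨ G.Adj w z) := by
    intro w h1 h2 h3
    obtain ⟨h, hh, ha⟩ := meets d hc0 (w := w) (by simp [h1, h2, h3])
    simp at hh
    rcases hh with rfl | rfl | rfl
    · exact Or.inl ha
    · exact Or.inr (Or.inl ha)
    · exact Or.inr (Or.inr ha)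
  -- the weighted sum
  set f : V → ℕ := fun u => 2 * ind (G.Adj u p) + ind (G.Adj u x) + ind (G.Adj u y) +
    ind (G.Adj u z) with hf
  have hsum : ∑ u, f u = 2 * (N G p).card + (N G x).card + (N G y).card + (N G z).card := by
    rw [N_card, N_card, N_card, N_card, hf]
    simp only [sum_add_distrib, ← mul_sum]
  have hub : ∑ u, f u ≤ 5 * D := by
    have := d.deg p
    have := d.deg x
    have := d.deg y
    have := d.deg z
    omega
  set Q : Finset V := {p, x, y, z} with hQ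
  have hQc : Q.card = 4 := by
    rw [hQ, card_insert_of_notMem, card_insert_of_notMem, card_insert_of_notMem, card_singleton]
    · simp [hyz]
    · simp [hxy, hxz]
    · simp [hxp.symm, hyp.symm, hzp.symm]
  have hsplit : ∑ u, f u = ∑ u ∈ Q, f u + ∑ u ∈ Qᶜ, f u := (sum_add_sum_compl Q f).symm
  have hout : 3 * (Qᶜ).card ≤ ∑ u ∈ Qᶜ, f u := by
    rw [mul_comm, ← smul_eq_mul, ← sum_const]
    apply sum_le_sum
    intro u hu
    simp only [hQ, mem_compl, mem_insert, mem_singleton, not_or] at hu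
    obtain ⟨h1, h2, h3, h4⟩ := hu
    have e1 := mx u h1 h2
    have e2 := my u h1 h3
    have e3 := mz u h1 h4
    have e4 := m0 u h2 h3 h4
    simp only [hf]
    by_cases k1 : G.Adj u p <;> by_cases k2 : G.Adj u x <;> by_cases k3 : G.Adj u y <;>
      by_cases k4 : G.Adj u z <;> simp [ind, k1, k2, k3, k4] at e1 e2 e3 e4 ⊢
  have hin : 9 ≤ ∑ u ∈ Q, f u := by
    have e : ∑ u ∈ Q, f u = f p + (f x + (f y + f z)) := by
      rw [hQ, sum_insert, sum_insert, sum_insert, sum_singleton]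
      · simp [hyz]
      · simp [hxy, hxz]
      · simp [hxp.symm, hyp.symm, hzp.symm]
    rw [e]
    have g0 := m0 p hxp.symm hyp.symm hzp.symm
    have gxy := my x hxp hxy
    have gxz := mz x hxp hxz
    have gyx := mx y hyp hxy.symm
    have gyz := mz y hyp hyz
    have gzx := mx z hzp hxz.symm
    have gzy := my z hzp hyz.symm
    simp only [hf]
    have s1 : G.Adj x p ↔ G.Adj p x := G.adj_comm _ _
    have s2 : G.Adj y p ↔ G.Adj p y := G.adj_comm _ _
    have s3 : G.Adj z p ↔ G.Adj p z := G.adj_comm _ _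
    have s4 : G.Adj y x ↔ G.Adj x y := G.adj_comm _ _
    have s5 : G.Adj z x ↔ G.Adj x z := G.adj_comm _ _
    have s6 : G.Adj z y ↔ G.Adj y z := G.adj_comm _ _
    rw [s1, s2, s3, s4, s5, s6]
    rw [s1] at gxy gxz
    rw [s2, s4] at gyx
    rw [s2] at gyz
    rw [s3, s5] at gzx
    rw [s3, s6] at gzy
    by_cases k1 : G.Adj p x <;> by_cases k2 : G.Adj p y <;> by_cases k3 : G.Adj p z <;>
      by_cases k4 : G.Adj x y <;> by_cases k5 : G.Adj x z <;> by_cases k6 : G.Adj y z <;>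
      simp [ind, k1, k2, k3, k4, k5, k6] at g0 gxy gxz gyx gyz gzx gzy ⊢
  have hcc := card_compl Q
  have hcard := d.card
  have hn := d.npos
  omega


end

lemma sum_N (G : SimpleGraph V) : ∑ v, (N G v).card = 2 * G.edgeSet.ncard := by
  have h := G.sum_degrees_eq_twice_card_edges
  have h2 : G.edgeSet.ncard = G.edgeFinset.card := by
    rw [← SimpleGraph.coe_edgeFinset, Set.ncard_coe_finset]
  rw [h2, ← h]
  apply sum_congr rfl
  intro v _
  unfold N
  rw [← SimpleGraph.card_neighborFinset_eq_degree]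
  congr 1
  ext u
  simp [mem_st]

lemma double_count (G : SimpleGraph V) (H : Finset V) :
    2 * (∑ v ∈ Hᶜ, (A G H v).card) + cnt (fun v => v ∉ H ∧ ∃ u, G.Adj v u ∧ u ∉ H) ≤
      2 * G.edgeSet.ncard := by
  rw [← sum_N]
  have hA : ∀ v, (A G H v).card = ∑ h, ind (G.Adj v h ∧ h ∈ H) := by
    intro v
    rw [← cnt_eq]; rfl
  have hN : ∀ v, (N G v).card = ∑ h, ind (G.Adj v h) := by
    intro v
    rw [← cnt_eq]; rfl
  have h1 : ∑ v, (N G v).card = ∑ v, ∑ u, ind (G.Adj v u) := sum_congr rfl (fun v _ => hN v)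
  have h2 : ∑ v ∈ Hᶜ, (A G H v).card = ∑ v, ∑ u, ind (v ∉ H ∧ G.Adj v u ∧ u ∈ H) := by
    rw [sum_L]
    apply sum_congr rfl
    intro v _
    rw [hA]
    by_cases hv : v ∉ H
    · rw [ind_pos hv, one_mul]
      apply sum_congr rfl
      intro u _
      congr 1
      simp [hv]
    · rw [ind_neg hv, zero_mul]
      symm
      apply sum_eq_zero
      intro u _
      exact ind_neg (fun h => hv h.1)
  have h3 : ∑ v, ∑ u, ind (v ∉ H ∧ G.Adj v u ∧ u ∈ H) =
      ∑ v, ∑ u, ind (u ∉ H ∧ G.Adj v u ∧ v ∈ H) := by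
    rw [sum_comm]
    apply sum_congr rfl
    intro v _
    apply sum_congr rfl
    intro u _
    congr 1
    rw [G.adj_comm]
  have h4 : cnt (fun v => v ∉ H ∧ ∃ u, G.Adj v u ∧ u ∉ H) ≤
      ∑ v, ∑ u, ind (v ∉ H ∧ G.Adj v u ∧ u ∉ H) := by
    rw [cnt_eq]
    apply sum_le_sum
    intro v _
    by_cases hv : v ∉ H ∧ ∃ u, G.Adj v u ∧ u ∉ H
    · obtain ⟨hvH, u, h5, h6⟩ := hv
      have h7 : ind (v ∉ H ∧ G.Adj v u ∧ u ∉ H) ≤ ∑ u, ind (v ∉ H ∧ G.Adj v u ∧ u ∉ H) :=
        single_le_sum (f := fun u => ind (v ∉ H ∧ G.Adj v u ∧ u ∉ H))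
          (fun _ _ => Nat.zero_le _) (mem_univ u)
      rw [ind_pos (p := v ∉ H ∧ G.Adj v u ∧ u ∉ H) ⟨hvH, h5, h6⟩] at h7
      exact (ind_le _).trans h7
    · rw [ind_neg hv]; omega
  have h5 : ∑ v, ∑ u, (ind (v ∉ H ∧ G.Adj v u ∧ u ∈ H) + ind (u ∉ H ∧ G.Adj v u ∧ v ∈ H) +
      ind (v ∉ H ∧ G.Adj v u ∧ u ∉ H)) ≤ ∑ v, ∑ u, ind (G.Adj v u) := by
    apply sum_le_sum
    intro v _
    apply sum_le_sum
    intro u _
    by_cases k1 : v ∈ H <;> by_cases k2 : u ∈ H <;> by_cases k3 : G.Adj v u <;>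
      simp [ind, k1, k2, k3]
  simp only [sum_add_distrib] at h5
  rw [← h3] at h5
  omega

/-- vertices of degree more than 5000 -/
noncomputable def Hub (G : SimpleGraph V) : Finset V := st (fun v => 5000 < (N G v).card)

lemma hub_card (G : SimpleGraph V) : 5000 * (Hub G).card ≤ 2 * G.edgeSet.ncard := by
  rw [← sum_N]
  calc 5000 * (Hub G).card = ∑ v ∈ Hub G, 5000 := by rw [sum_const, smul_eq_mul, mul_comm]
    _ ≤ ∑ v ∈ Hub G, (N G v).card := by
        apply sum_le_sum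
        intro v hv
        exact (mem_st.1 hv).le
    _ ≤ ∑ v, (N G v).card := sum_le_sum_of_subset (subset_univ _)

lemma hub_B (G : SimpleGraph V)
    (diam : ∀ u v, u = v ∨ G.Adj u v ∨ ∃ w, G.Adj u w ∧ G.Adj w v) (v : V) (hv : v ∉ Hub G) :
    cnt (fun u => ∀ h ∈ A G (Hub G) v, ¬ G.Adj u h) ≤ 25005001 := by
  have hK : (N G v).card ≤ 5000 := by
    by_contra h
    push Not at h
    exact hv (mem_st.2 h)
  have h1 : st (fun u => ∀ h ∈ A G (Hub G) v, ¬ G.Adj u h) ⊆
      insert v (N G v ∪ ((N G v).filter (fun w => w ∉ Hub G)).biUnion (fun w => N G w)) := by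
    intro u hu
    have hu' := mem_st.1 hu
    rw [mem_insert, mem_union, mem_biUnion]
    rcases diam u v with h | h | ⟨w, h1, h2⟩
    · exact Or.inl h
    · exact Or.inr (Or.inl (mem_N.2 h.symm))
    · refine Or.inr (Or.inr ⟨w, ?_, mem_N.2 h1.symm⟩)
      rw [mem_filter]
      refine ⟨mem_N.2 h2.symm, ?_⟩
      intro hw
      exact hu' w (mem_A.2 ⟨h2.symm, hw⟩) h1
  have h2 : (((N G v).filter (fun w => w ∉ Hub G)).biUnion (fun w => N G w)).card ≤
      ((N G v).filter (fun w => w ∉ Hub G)).card * 5000 := by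
    apply card_biUnion_le_card_mul
    intro w hw
    by_contra h
    push Not at h
    exact (mem_filter.1 hw).2 (mem_st.2 h)
  have h3 : ((N G v).filter (fun w => w ∉ Hub G)).card ≤ 5000 := (card_filter_le _ _).trans hK
  have h4 := (card_le_card h1).trans ((card_insert_le _ _).trans
    (Nat.add_le_add_right (card_union_le _ _) 1))
  unfold cnt
  omega

/-- **Main lower bound.** -/
theorem lower (G : SimpleGraph V)
    (diam : ∀ u v, u = v ∨ G.Adj u v ∨ ∃ w, G.Adj u w ∧ G.Adj w v)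
    (n D : ℕ) (hn : Fintype.card V = n) (hbig : 25005001000 ≤ n)
    (hdeg : ∀ v, (N G v).card ≤ D) (hD : 5 * D + 4 ≤ 3 * n) :
    2401 * n < 1000 * G.edgeSet.ncard := by
  by_contra hcon
  push Not at hcon
  have h1 := double_count G (Hub G)
  have h2 := hub_card G
  have d : Data G (Hub G) n D (n / 1000) :=
    { card := hn
      npos := by omega
      diam := diam
      deg := hdeg
      D5 := by omega
      M1000 := by omega
      HM := by omega
      B := fun v hv => (hub_B G diam v hv).trans (by omega)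
      edges := by omega }
  exact contradiction d hD

end Pool.Agent.W151.DiamTwo
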