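import Mathlib
import Pool.Agent.W151.TreeRec

set_option autoImplicit false
set_option linter.unusedSectionVars false

/-! # Spanning trees of `G[S]` and parent functions -/

namespace Pool.Agent.W151.TreeRec

open Finset

attribute [local instance] Classical.propDecidable

variable {V : Type} [Fintype V]

/-- the subgraph of a parent function -/
def Phi (G : SimpleGraph V) (S : Finset V) (π : V → V) : G.Subgraph where
  verts := S
  Adj a b := a ∈ S ∧ b ∈ S ∧ G.Adj a b ∧ (π a = b ∨ π b = a)
  adj_sub h := h.2.2.1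
  edge_vert h := h.1
  symm := ⟨fun _ _ h => ⟨h.2.1, h.1, h.2.2.1.symm, h.2.2.2.symm⟩⟩

/-- the number of trees with vertex set `S` -/
noncomputable def tau (G : SimpleGraph V) (S : Finset V) : ℕ :=
  Set.ncard {H : G.Subgraph | H.coe.IsTree ∧ H.verts = (S : Set V)}

lemma Phi_reach {G : SimpleGraph V} {S : Finset V} {r : V} {π : V → V} (hr : r ∈ S)
    (h : IsPar G S r π) : ∀ (k : ℕ) (v : V) (hv : v ∈ S), π^[k] v = r →
    (Phi G S π).coe.Reachable ⟨v, hv⟩ ⟨r, hr⟩ := by
  intro k
  induction k with
  | zero =>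
    intro v hv hk
    have : v = r := hk
    subst this
    exact SimpleGraph.Reachable.refl _
  | succ k ih =>
    intro v hv hk
    by_cases hvr : v = r
    · subst hvr
      exact SimpleGraph.Reachable.refl _
    · rw [Function.iterate_succ_apply] at hk
      obtain ⟨h1, h2⟩ := h.2.1 v hv hvr
      refine SimpleGraph.Reachable.trans (SimpleGraph.Adj.reachable ?_) (ih (π v) h1 hk)
      exact ⟨hv, h1, h2, Or.inl rfl⟩

lemma Phi_isTree {G : SimpleGraph V} {S : Finset V} {r : V} {π : V → V} (hr : r ∈ S)
    (h : IsPar G S r π) : (Phi G S π).coe.IsTree := by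
  haveI : Finite (Phi G S π).verts := Set.Finite.to_subtype (Set.toFinite _)
  have hconn : (Phi G S π).coe.Connected := by
    rw [SimpleGraph.connected_iff_exists_forall_reachable]
    refine ⟨⟨r, hr⟩, ?_⟩
    rintro ⟨v, hv⟩
    obtain ⟨k, hk⟩ := h.2.2 v hv
    exact (Phi_reach hr h k v hv hk).symm
  rw [SimpleGraph.isTree_iff_connected_and_card]
  refine ⟨hconn, le_antisymm ?_ hconn.card_vert_le_card_edgeSet_add_one⟩
  have hcV : Nat.card (Phi G S π).verts = S.card := by
    have : (Phi G S π).verts = (S : Set V) := rfl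
    rw [this, Nat.card_coe_set_eq, Set.ncard_coe_finset]
  rw [hcV, Nat.card_coe_set_eq]
  set f : V → Sym2 (Phi G S π).verts := fun v =>
    if hv : v ∈ S ∧ π v ∈ S then s(⟨v, hv.1⟩, ⟨π v, hv.2⟩) else s(⟨r, hr⟩, ⟨r, hr⟩) with hf
  have hsub : (Phi G S π).coe.edgeSet ⊆ f '' ((S.erase r : Finset V) : Set V) := by
    intro e he
    induction e using Sym2.ind with
    | _ a b =>
      rw [SimpleGraph.mem_edgeSet] at he
      have he' : (a : V) ∈ S ∧ (b : V) ∈ S ∧ G.Adj a b ∧ (π a = b ∨ π b = a) := he
      obtain ⟨ha, hb, hab, h1 | h1⟩ := he'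
      · refine ⟨a, ?_, ?_⟩
        · simp only [coe_erase, Set.mem_diff, mem_coe, Set.mem_singleton_iff]
          refine ⟨ha, ?_⟩
          intro har
          rw [har, h.root] at h1
          rw [har, ← h1] at hab
          exact G.loopless.irrefl _ hab
        · rw [hf]
          simp only
          have hc : (a : V) ∈ S ∧ π a ∈ S := ⟨ha, by rw [h1]; exact hb⟩
          rw [dif_pos hc]
          congr 1
          simp [h1]
      · refine ⟨b, ?_, ?_⟩
        · simp only [coe_erase, Set.mem_diff, mem_coe, Set.mem_singleton_iff]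
          refine ⟨hb, ?_⟩
          intro hbr
          rw [hbr, h.root] at h1
          rw [hbr, ← h1] at hab
          exact G.loopless.irrefl _ hab
        · rw [hf]
          simp only
          have hc : (b : V) ∈ S ∧ π b ∈ S := ⟨hb, by rw [h1]; exact ha⟩
          rw [dif_pos hc, Sym2.eq_swap]
          congr 1
          simp [h1]
  have h1 := Set.ncard_le_ncard hsub (Set.toFinite _)
  have h2 := Set.ncard_image_le (f := f) (s := ((S.erase r : Finset V) : Set V)) (Set.toFinite _)
  rw [Set.ncard_coe_finset, card_erase_of_mem hr] at h2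
  have h3 : 0 < S.card := card_pos.2 ⟨r, hr⟩
  omega

lemma Phi_inj {G : SimpleGraph V} {S : Finset V} {r : V} {π π' : V → V}
    (h : IsPar G S r π) (h' : IsPar G S r π') (he : Phi G S π = Phi G S π') : π = π' := by
  have hadj : ∀ a b, (Phi G S π).Adj a b → (Phi G S π').Adj a b := by
    intro a b hab; rw [← he]; exact hab
  funext v
  by_cases hv : v ∉ S ∨ v = r
  · rw [h.1 v hv, h'.1 v hv]
  push Not at hv
  obtain ⟨hvS, hvr⟩ := hv
  by_contra hne
  -- backwards induction
  have key : ∀ i, π^[i] v ≠ r ∧ π' (π^[i + 1] v) = π^[i] v := by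
    intro i
    induction i with
    | zero =>
      refine ⟨hvr, ?_⟩
      have h1 : (Phi G S π).Adj v (π v) :=
        ⟨hvS, (h.2.1 v hvS hvr).1, (h.2.1 v hvS hvr).2, Or.inl rfl⟩
      have h2 := (hadj _ _ h1).2.2.2
      rcases h2 with h2 | h2
      · exact absurd h2.symm hne
      · exact h2
    | succ i ih =>
      obtain ⟨i1, i2⟩ := ih
      have hne' : π^[i + 1] v ≠ r := by
        intro h3
        rw [h3, h'.root] at i2
        exact i1 i2.symm
      refine ⟨hne', ?_⟩
      have hS : π^[i + 1] v ∈ S := h.iter_mem hvS _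
      have h1 : (Phi G S π).Adj (π^[i + 1] v) (π (π^[i + 1] v)) :=
        ⟨hS, (h.2.1 _ hS hne').1, (h.2.1 _ hS hne').2, Or.inl rfl⟩
      have h2 := (hadj _ _ h1).2.2.2
      rw [Function.iterate_succ_apply' π (i + 1)]
      rcases h2 with h2 | h2
      · exfalso
        rw [i2] at h2
        -- π (π (π^[i] v)) = π^[i] v, so r is never reached
        have h3 : ∀ k, π^[2 * k] (π^[i] v) = π^[i] v := by
          intro k
          induction k with
          | zero => rfl
          | succ k ihk =>
            have e : 2 * (k + 1) = 2 * k + 1 + 1 := by ring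
            rw [e, Function.iterate_succ_apply, Function.iterate_succ_apply,
              ← Function.iterate_succ_apply' π i v, ← h2, ihk]
        obtain ⟨k, hk⟩ := h.2.2 _ (h.iter_mem hvS i)
        have h4 := h3 k
        rw [two_mul, Function.iterate_add_apply, hk, iter_fix h.root] at h4
        exact i1 h4.symm
      · exact h2
  obtain ⟨k, hk⟩ := h.2.2 v hvS
  exact (key k).1 hk

lemma Phi_surj {G : SimpleGraph V} {S : Finset V} {r : V} (hr : r ∈ S) (H : G.Subgraph)
    (hT : H.coe.IsTree) (hV : H.verts = (S : Set V)) : ∃ π, IsPar G S r π ∧ Phi G S π = H := by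
  have hrH : r ∈ H.verts := by rw [hV]; exact hr
  set R : H.verts := ⟨r, hrH⟩ with hR
  -- next vertex towards the root
  have hex : ∀ v : H.verts, v ≠ R → ∃ w : H.verts, H.coe.Adj v w ∧
      H.coe.dist w R + 1 = H.coe.dist v R := by
    intro v hv
    obtain ⟨p, hp⟩ := (hT.connected v R).exists_walk_length_eq_dist
    cases p with
    | nil => exact absurd rfl hv
    | cons h1 q =>
      rename_i w
      refine ⟨w, h1, ?_⟩
      rw [SimpleGraph.Walk.length_cons] at hp
      have h2 := SimpleGraph.dist_le q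
      have h3 := SimpleGraph.dist_le (SimpleGraph.Walk.cons h1 q)
      have h4 : H.coe.dist v R ≤ H.coe.dist w R + 1 := by
        obtain ⟨q', hq'⟩ := (hT.connected w R).exists_walk_length_eq_dist
        have h5 := SimpleGraph.dist_le (SimpleGraph.Walk.cons h1 q')
        rw [SimpleGraph.Walk.length_cons, hq'] at h5
        exact h5
      omega
  choose nx hnx1 hnx2 using hex
  set π : V → V := fun v => if hv : ∃ h : v ∈ H.verts, (⟨v, h⟩ : H.verts) ≠ R then
    (nx ⟨v, hv.1⟩ hv.2 : V) else v with hπ
  have hπv : ∀ (v : V) (h : v ∈ H.verts) (hv : (⟨v, h⟩ : H.verts) ≠ R),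
      π v = nx ⟨v, h⟩ hv := by
    intro v h hv
    rw [hπ]
    simp only
    rw [dif_pos ⟨h, hv⟩]
  have hmemS : ∀ v, v ∈ H.verts ↔ v ∈ S := by
    intro v; rw [hV]; simp
  have hPar : IsPar G S r π := by
    refine ⟨?_, ?_, ?_⟩
    · intro v hv
      rw [hπ]
      simp only
      rw [dif_neg]
      rintro ⟨h1, h2⟩
      rcases hv with h3 | h3
      · exact h3 ((hmemS v).1 h1)
      · apply h2
        rw [hR]
        exact Subtype.ext h3
    · intro v hv hvr
      have h1 : v ∈ H.verts := (hmemS v).2 hv
      have h2 : (⟨v, h1⟩ : H.verts) ≠ R := by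
        intro h3
        exact hvr (congrArg Subtype.val h3)
      rw [hπv v h1 h2]
      refine ⟨(hmemS _).1 (nx ⟨v, h1⟩ h2).2, ?_⟩
      exact H.adj_sub (hnx1 ⟨v, h1⟩ h2)
    · have key : ∀ (k : ℕ) (v : V) (h : v ∈ H.verts), H.coe.dist ⟨v, h⟩ R = k → π^[k] v = r := by
        intro k
        induction k with
        | zero =>
          intro v h hk
          have : (⟨v, h⟩ : H.verts) = R := (hT.connected.dist_eq_zero_iff).1 hk
          exact congrArg Subtype.val this
        | succ k ih =>
          intro v h hk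
          have h2 : (⟨v, h⟩ : H.verts) ≠ R := by
            intro h3
            rw [h3, SimpleGraph.dist_self] at hk
            omega
          rw [Function.iterate_succ_apply, hπv v h h2]
          apply ih _ (nx ⟨v, h⟩ h2).2
          have := hnx2 ⟨v, h⟩ h2
          simp only [Subtype.coe_eta]
          omega
      intro v hv
      exact ⟨_, key _ v ((hmemS v).2 hv) rfl⟩
  refine ⟨π, hPar, ?_⟩
  -- uniqueness of the neighbour closer to the root
  have huniq : ∀ (a b c : H.verts), H.coe.Adj a b → H.coe.Adj a c →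
      H.coe.dist b R + 1 = H.coe.dist a R → H.coe.dist c R + 1 = H.coe.dist a R → b = c := by
    intro a b c hab hac h1 h2
    obtain ⟨q1, hq1⟩ := (hT.connected b R).exists_walk_length_eq_dist
    obtain ⟨q2, hq2⟩ := (hT.connected c R).exists_walk_length_eq_dist
    have p1 : (SimpleGraph.Walk.cons hab q1).IsPath := by
      apply SimpleGraph.Walk.isPath_of_length_eq_dist
      rw [SimpleGraph.Walk.length_cons, hq1, h1]
    have p2 : (SimpleGraph.Walk.cons hac q2).IsPath := by
      apply SimpleGraph.Walk.isPath_of_length_eq_dist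
      rw [SimpleGraph.Walk.length_cons, hq2, h2]
    have e := (hT.existsUnique_path a R).unique p1 p2
    have e2 := congrArg (fun w => w.getVert 1) e
    simpa using e2
  apply SimpleGraph.Subgraph.ext
  · rw [hV]; rfl
  · funext a b
    apply propext
    constructor
    · rintro ⟨ha, hb, hab, h1 | h1⟩
      · have h2 : a ∈ H.verts := (hmemS a).2 ha
        have h3 : (⟨a, h2⟩ : H.verts) ≠ R := by
          intro h4
          have h5 : a = r := congrArg Subtype.val h4
          rw [h5, hPar.root] at h1
          rw [h5, ← h1] at hab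
          exact G.loopless.irrefl _ hab
        rw [hπv a h2 h3] at h1
        have h6 : H.Adj a (nx ⟨a, h2⟩ h3) := hnx1 ⟨a, h2⟩ h3
        rwa [h1] at h6
      · have h2 : b ∈ H.verts := (hmemS b).2 hb
        have h3 : (⟨b, h2⟩ : H.verts) ≠ R := by
          intro h4
          have h5 : b = r := congrArg Subtype.val h4
          rw [h5, hPar.root] at h1
          rw [h5, ← h1] at hab
          exact G.loopless.irrefl _ hab
        rw [hπv b h2 h3] at h1
        have h6 : H.Adj b (nx ⟨b, h2⟩ h3) := hnx1 ⟨b, h2⟩ h3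
        rw [h1] at h6
        exact h6.symm
    · intro hab
      have ha : a ∈ H.verts := H.edge_vert hab
      have hb : b ∈ H.verts := H.edge_vert hab.symm
      have habc : H.coe.Adj ⟨a, ha⟩ ⟨b, hb⟩ := hab
      refine ⟨(hmemS a).1 ha, (hmemS b).1 hb, H.adj_sub hab, ?_⟩
      have h1 := hT.dist_eq_dist_add_one_of_adj R habc
      rw [SimpleGraph.dist_comm, SimpleGraph.dist_comm (v := (⟨b, hb⟩ : H.verts))] at h1
      rcases h1 with h1 | h1
      · left
        have h3 : (⟨a, ha⟩ : H.verts) ≠ R := by
          intro h4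
          rw [h4, SimpleGraph.dist_self] at h1
          omega
        rw [hπv a ha h3]
        exact congrArg Subtype.val (huniq _ _ _ (hnx1 ⟨a, ha⟩ h3) habc (hnx2 ⟨a, ha⟩ h3) h1.symm)
      · right
        have h3 : (⟨b, hb⟩ : H.verts) ≠ R := by
          intro h4
          rw [h4, SimpleGraph.dist_self] at h1
          omega
        rw [hπv b hb h3]
        exact congrArg Subtype.val
          (huniq _ _ _ (hnx1 ⟨b, hb⟩ h3) habc.symm (hnx2 ⟨b, hb⟩ h3) h1.symm)

/-- the number of trees with vertex set `S` is the number of parent functions -/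
theorem tau_eq (G : SimpleGraph V) (S : Finset V) (r : V) (hr : r ∈ S) :
    tau G S = (Par G S r).card := by
  have h1 : {H : G.Subgraph | H.coe.IsTree ∧ H.verts = (S : Set V)} =
      (Phi G S) '' (Par G S r : Set (V → V)) := by
    ext H
    constructor
    · rintro ⟨h1, h2⟩
      obtain ⟨π, h3, h4⟩ := Phi_surj hr H h1 h2
      exact ⟨π, mem_coe.2 (mem_Par.2 h3), h4⟩
    · rintro ⟨π, h3, rfl⟩
      exact ⟨Phi_isTree hr (mem_Par.1 (mem_coe.1 h3)), rfl⟩
  unfold tau
  rw [h1, Set.ncard_image_of_injOn, Set.ncard_coe_finset]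
  intro π hπ π' hπ' he
  exact Phi_inj (mem_Par.1 (mem_coe.1 hπ)) (mem_Par.1 (mem_coe.1 hπ')) he

end Pool.Agent.W151.TreeRec
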