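import Mathlib
import Pool.Agent.W151.TreeIneq

set_option autoImplicit false
set_option linter.unusedSectionVars false

/-! # The normalised number of spanning trees: main inequality -/

namespace Pool.Agent.W151.TreeIneq

open Finset TreeRec TreeNum

attribute [local instance] Classical.propDecidable

variable {V : Type} [Fintype V]

lemma tau_single (G : SimpleGraph V) (v : V) : tau G {v} = 1 := by
  rw [tau_eq G {v} v (mem_singleton_self v), card_eq_one]
  refine ⟨id, ?_⟩
  ext π
  rw [mem_Par, mem_singleton]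
  constructor
  · intro h
    funext w
    exact h.1 w (by simp; tauto)
  · rintro rfl
    refine ⟨fun _ _ => rfl, ?_, ?_⟩
    · intro w hw hwv
      exact absurd (mem_singleton.1 hw) hwv
    · intro w hw
      exact ⟨0, mem_singleton.1 hw⟩

lemma tau_pair_le (G : SimpleGraph V) {S : Finset V} {r : V} (hr : r ∈ S) (hS : S.card = 2) :
    (tau G S : ℝ) ≤ 1 := by
  have hc : (S.erase r).card = 1 := by rw [card_erase_of_mem hr, hS]
  obtain ⟨v, hv⟩ := card_eq_one.1 hc
  have h := rec_card G hr hc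
  have hvS : v ∈ S.erase r := by rw [hv]; simp
  have e : S \ {v} = {r} := by
    ext w
    have : w ∈ S.erase r ↔ w = v := by rw [hv]; simp
    rw [mem_erase] at this
    simp only [mem_sdiff, mem_singleton]
    constructor
    · rintro ⟨h1, h2⟩
      by_contra h3
      exact h2 (this.1 ⟨h3, h1⟩)
    · rintro rfl
      exact ⟨hr, fun h => by rw [h] at hvS; simp at hvS⟩
  have e2 : powersetCard 1 {v} = ({{v}} : Finset (Finset V)) := by
    have := powersetCard_self ({v} : Finset V)
    rwa [card_singleton] at this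
  rw [hv] at h
  simp only [range_one, sum_singleton, zero_add, e2, e, tau_single, Nat.cast_one, one_mul,
    mul_one] at h
  rw [h]
  unfold E
  rw [tau_single, Nat.cast_one, mul_one]
  have : ((({v} : Finset V).filter (fun u => G.Adj u r)).card : ℝ) ≤
      ((({v} : Finset V).card : ℕ) : ℝ) := by exact_mod_cast card_filter_le _ _
  simpa using this

/-- **Main inequality.** For every set `S` with `n` elements and every `r ∈ S`,
`(n-1) τ(S)/n^(n-2) ≤ ∑_{v ∈ S, v ≠ r} τ(S - v)/(n-1)^(n-3)`. -/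
theorem main (G : SimpleGraph V) : ∀ n, Stmt G n := by
  intro n
  induction n using Nat.strong_induction_on with
  | _ n ih =>
  rcases n with _ | _ | _ | M
  · intro S hS r hr
    rw [card_eq_zero] at hS
    subst hS
    simp at hr
  · intro S hS r hr
    have : (S.erase r).card = 0 := by rw [card_erase_of_mem hr, hS]
    rw [card_eq_zero] at this
    rw [this]
    simp
  · intro S hS r hr
    have h1 := tau_pair_le G hr hS
    have hc : (S.erase r).card = 1 := by rw [card_erase_of_mem hr, hS]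
    obtain ⟨v, hv⟩ := card_eq_one.1 hc
    have hvS : v ∈ S.erase r := by rw [hv]; simp
    have hc2 : (S.erase v).card = 1 := by
      rw [card_erase_of_mem (mem_of_mem_erase hvS), hS]
    obtain ⟨w, hw⟩ := card_eq_one.1 hc2
    rw [hv, sum_singleton, hw, tau_single]
    simp [a]
    exact_mod_cast h1
  · -- `n = (M + 1) + 2`
    intro S hS r hr
    set M' := M + 1 with hM'
    have hn : M + 1 + 1 + 1 = M' + 2 := rfl
    have hS' : S.card = M' + 2 := hS
    rw [hn]
    have hM1 : 1 ≤ M' := by omega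
    have hcard : (S.erase r).card = M' + 1 := by rw [card_erase_of_mem hr, hS']; rfl
    set GG : ℕ → ℝ := fun k => ∑ C ∈ powersetCard k (S.erase r), E G r C * (tau G (S \ C) : ℝ)
      with hGG
    set GH : ℕ → ℝ := fun k => ∑ v ∈ S.erase r, ∑ C ∈ powersetCard k ((S.erase r).erase v),
        E G r C * (tau G ((S.erase v) \ C) : ℝ) with hGH
    have hR : ((M' + 1 : ℕ) : ℝ) * (tau G S : ℝ) =
        ∑ i ∈ range (M' + 1), ((i + 1 : ℕ) : ℝ) * GG (i + 1) := rec_card G hr hcard
    have hR' : (M' : ℝ) * ∑ v ∈ S.erase r, (tau G (S.erase v) : ℝ) =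
        ∑ i ∈ range M', ((i + 1 : ℕ) : ℝ) * GH (i + 1) := rec_card' G hr hcard
    set g : ℕ → ℝ := fun i => GG (i + 1) / (((M' + 1).choose (i + 1) : ℝ) * ((i + 1 : ℕ) : ℝ) *
      (a (i + 1) : ℝ) * (a (M' + 1 - i) : ℝ)) with hg
    set h : ℕ → ℝ := fun i => GH (i + 1) / (((M' + 1 : ℕ) : ℝ) * (M'.choose (i + 1) : ℝ) *
      ((i + 1 : ℕ) : ℝ) * (a (i + 1) : ℝ) * (a (M' - i) : ℝ)) with hh
    have ha : ∀ i, 1 ≤ i → (0 : ℝ) < a i := fun i hi => by exact_mod_cast a_pos hi
    have hch : ∀ {p q : ℕ}, q ≤ p → (0 : ℝ) < (p.choose q : ℝ) := by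
      intro p q hpq
      exact_mod_cast Nat.choose_pos hpq
    -- first weighted sum
    have hα : ∑ i ∈ range (M' + 1), W M' i * g i = (tau G S : ℝ) / (a (M' + 2) : ℝ) := by
      have h1 : ∀ i ∈ range (M' + 1), W M' i * g i =
          (((i + 1 : ℕ) : ℝ) * GG (i + 1)) / (((M' + 1 : ℕ) : ℝ) * (a (M' + 2) : ℝ)) := by
        intro i hi
        have hi' : i ≤ M' := by have := mem_range.1 hi; omega
        have h2 := choose_mul' (M' + 1) i (by omega)
        rw [Nat.add_sub_cancel] at h2
        have h3 := ha (i + 1) (by omega)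
        have h4 := ha (M' + 1 - i) (by omega)
        have h5 := ha (M' + 2) (by omega)
        have h6 : (0 : ℝ) < ((M' + 1).choose (i + 1) : ℝ) := hch (by omega)
        rw [hg]
        unfold W
        simp only
        rw [div_mul_div_comm, div_eq_div_iff (by positivity) (by positivity)]
        linear_combination (-(((i + 1 : ℕ) : ℝ) * (a (i + 1) : ℝ) * (a (M' + 1 - i) : ℝ) *
          GG (i + 1) * (a (M' + 2) : ℝ))) * h2
      rw [sum_congr rfl h1, ← sum_div, ← hR]
      have h5 := ha (M' + 2) (by omega)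
      field_simp
    have hβ : ∑ i ∈ range M', W (M' - 1) i * h i =
        (∑ v ∈ S.erase r, (tau G (S.erase v) : ℝ)) / (((M' + 1 : ℕ) : ℝ) * (a (M' + 1) : ℝ)) := by
      have h1 : ∀ i ∈ range M', W (M' - 1) i * h i =
          (((i + 1 : ℕ) : ℝ) * GH (i + 1)) /
            ((M' : ℝ) * (((M' + 1 : ℕ) : ℝ) * (a (M' + 1) : ℝ))) := by
        intro i hi
        have hi' : i < M' := mem_range.1 hi
        have h2 := choose_mul' M' i (by omega)
        have h3 := ha (i + 1) (by omega)
        have h4 := ha (M' - i) (by omega)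
        have h5 := ha (M' + 1) (by omega)
        have h6 : (0 : ℝ) < (M'.choose (i + 1) : ℝ) := hch (by omega)
        have h7 : (0 : ℝ) < (M' : ℝ) := by exact_mod_cast hM1
        rw [hh]
        unfold W
        simp only
        rw [show M' - 1 + 1 - i = M' - i by omega, show M' - 1 + 2 = M' + 1 by omega,
          div_mul_div_comm, div_eq_div_iff (by positivity) (by positivity)]
        linear_combination (-(((i + 1 : ℕ) : ℝ) * (a (i + 1) : ℝ) * (a (M' - i) : ℝ) *
          GH (i + 1) * (a (M' + 1) : ℝ) * ((M' + 1 : ℕ) : ℝ))) * h2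
      rw [sum_congr rfl h1, ← sum_div, ← hR']
      have h5 := ha (M' + 1) (by omega)
      have h7 : (0 : ℝ) < (M' : ℝ) := by exact_mod_cast hM1
      field_simp
    have hγ : ∀ i < M', g i ≤ h i := by
      intro i hi
      have h1 := ineq1 G hr (k := i + 1) (j := M' - i) (by omega) (by omega)
        (ih _ (by omega))
      have h2 := choose_mul (M' + 1) (i + 1) (by omega) (by omega)
      rw [Nat.add_sub_cancel, show M' + 1 - (i + 1) = M' - i by omega] at h2
      have h3 := ha (i + 1) (by omega)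
      have h4 := ha (M' - i) (by omega)
      have h4' := ha (M' + 1 - i) (by omega)
      have h6 : (0 : ℝ) < (M'.choose (i + 1) : ℝ) := hch (by omega)
      have h6' : (0 : ℝ) < ((M' + 1).choose (i + 1) : ℝ) := hch (by omega)
      have e : M' - i + 1 = M' + 1 - i := by omega
      rw [e] at h1
      have h1' : ((M' - i : ℕ) : ℝ) * (a (M' - i) : ℝ) * GG (i + 1) ≤
        (a (M' + 1 - i) : ℝ) * GH (i + 1) := h1
      rw [hg, hh]
      simp only
      rw [div_le_div_iff₀ (by positivity) (by positivity)]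
      have h8 := mul_le_mul_of_nonneg_left h1' (show (0 : ℝ) ≤ ((M' + 1).choose (i + 1) : ℝ) *
        ((i + 1 : ℕ) : ℝ) * (a (i + 1) : ℝ) by positivity)
      calc GG (i + 1) * (((M' + 1 : ℕ) : ℝ) * (M'.choose (i + 1) : ℝ) *
            ((i + 1 : ℕ) : ℝ) * (a (i + 1) : ℝ) * (a (M' - i) : ℝ))
          = ((M' + 1).choose (i + 1) : ℝ) * ((i + 1 : ℕ) : ℝ) * (a (i + 1) : ℝ) *
            (((M' - i : ℕ) : ℝ) * (a (M' - i) : ℝ) * GG (i + 1)) := by
              linear_combination (-(GG (i + 1) * ((i + 1 : ℕ) : ℝ) * (a (i + 1) : ℝ) *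
                (a (M' - i) : ℝ))) * h2
        _ ≤ _ := h8
        _ = _ := by ring
    have hδ : ∀ i < M', g (i + 1) ≤ h i := by
      intro i hi
      have h1 := ineq2 G hr (k := i + 1) (by omega) (ih _ (by omega))
      have h2 := choose_mul' (M' + 1) (i + 1) (by omega)
      rw [Nat.add_sub_cancel] at h2
      have h3 := ha (i + 1) (by omega)
      have h3' := ha (i + 1 + 1) (by omega)
      have h4 := ha (M' - i) (by omega)
      have h6 : (0 : ℝ) < (M'.choose (i + 1) : ℝ) := hch (by omega)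
      have h6' : (0 : ℝ) < ((M' + 1).choose (i + 1 + 1) : ℝ) := hch (by omega)
      have e : M' + 1 - (i + 1) = M' - i := by omega
      have h1' : ((i + 1 : ℕ) : ℝ) * (a (i + 1) : ℝ) * GG (i + 1 + 1) ≤
        (a (i + 1 + 1) : ℝ) * GH (i + 1) := h1
      rw [hg, hh]
      simp only
      rw [e, div_le_div_iff₀ (by positivity) (by positivity)]
      have h8 := mul_le_mul_of_nonneg_left h1' (show (0 : ℝ) ≤ ((M' + 1 : ℕ) : ℝ) *
        (M'.choose (i + 1) : ℝ) * (a (M' - i) : ℝ) by positivity)
      calc GG (i + 1 + 1) * (((M' + 1 : ℕ) : ℝ) * (M'.choose (i + 1) : ℝ) *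
            ((i + 1 : ℕ) : ℝ) * (a (i + 1) : ℝ) * (a (M' - i) : ℝ))
          = ((M' + 1 : ℕ) : ℝ) * (M'.choose (i + 1) : ℝ) * (a (M' - i) : ℝ) *
            (((i + 1 : ℕ) : ℝ) * (a (i + 1) : ℝ) * GG (i + 1 + 1)) := by ring
        _ ≤ ((M' + 1 : ℕ) : ℝ) * (M'.choose (i + 1) : ℝ) * (a (M' - i) : ℝ) *
            ((a (i + 1 + 1) : ℝ) * GH (i + 1)) := h8
        _ = _ := by
              linear_combination (-((a (M' - i) : ℝ) * (a (i + 1 + 1) : ℝ) * GH (i + 1))) * h2
    have hfl := flow M' (W M') (W (M' - 1)) g h (fun i hi => W1 M' i hi) (fun i hi => W2 M' i hi)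
      (by
        rw [sum_W]
        have := sum_W (M' - 1)
        rw [show M' - 1 + 1 = M' by omega] at this
        rw [this]) hγ hδ
    rw [hα, hβ] at hfl
    rw [show M' + 2 - 1 = M' + 1 by omega, ← sum_div]
    have h5 := ha (M' + 1) (by omega)
    have h9 : (0 : ℝ) < ((M' + 1 : ℕ) : ℝ) := by positivity
    calc ((M' + 1 : ℕ) : ℝ) * ((tau G S : ℝ) / (a (M' + 2) : ℝ))
        ≤ ((M' + 1 : ℕ) : ℝ) * ((∑ v ∈ S.erase r, (tau G (S.erase v) : ℝ)) /
          (((M' + 1 : ℕ) : ℝ) * (a (M' + 1) : ℝ))) := mul_le_mul_of_nonneg_left hfl h9.le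
      _ = _ := by field_simp

end Pool.Agent.W151.TreeIneq
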