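import Mathlib
import Pool.Agent.W151.TreeMain

set_option autoImplicit false
set_option linter.unusedSectionVars false

/-! # Cayley's formula, and the mean order of subtrees -/

namespace Pool.Agent.W151.TreeIneq

open Finset TreeRec TreeNum

attribute [local instance] Classical.propDecidable

variable {V : Type} [Fintype V]

/-- Cayley's formula -/
theorem tau_top : ∀ (n : ℕ) (S : Finset V), S.card = n → 1 ≤ n →
    tau (⊤ : SimpleGraph V) S = a n := by
  intro n
  induction n using Nat.strong_induction_on with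
  | _ n ih =>
  intro S hS hn
  rcases n with _ | _ | M
  · omega
  · obtain ⟨v, rfl⟩ := card_eq_one.1 hS
    rw [tau_single]
    simp [a]
  · obtain ⟨r, hr⟩ : S.Nonempty := card_pos.1 (by omega)
    have hcard : (S.erase r).card = M + 1 := by rw [card_erase_of_mem hr, hS]; rfl
    have h := rec_card (⊤ : SimpleGraph V) hr hcard
    have h1 : ∀ i ∈ range (M + 1), ((i + 1 : ℕ) : ℝ) *
        ∑ C ∈ powersetCard (i + 1) (S.erase r), E (⊤ : SimpleGraph V) r C *
          (tau (⊤ : SimpleGraph V) (S \ C) : ℝ) =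
        ((M + 1 : ℕ) : ℝ) * (W M i * (a (M + 2) : ℝ)) := by
      intro i hi
      have hi' : i < M + 1 := mem_range.1 hi
      have h2 : ∀ C ∈ powersetCard (i + 1) (S.erase r), E (⊤ : SimpleGraph V) r C *
          (tau (⊤ : SimpleGraph V) (S \ C) : ℝ) =
          ((i + 1 : ℕ) : ℝ) * (a (i + 1) : ℝ) * (a (M + 1 - i) : ℝ) := by
        intro C hC
        rw [mem_powersetCard] at hC
        have hrC : r ∉ C := fun h => by have := hC.1 h; simp at this
        have hCS : C ⊆ S := hC.1.trans (erase_subset _ _)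
        have e2 : (S \ C).card = M + 1 - i := by
          rw [card_sdiff_of_subset hCS, hC.2, hS]; omega
        have e3 : ((C.filter (fun u => (⊤ : SimpleGraph V).Adj u r)).card : ℝ) = (C.card : ℝ) := by
          rw [filter_true_of_mem]
          intro u hu
          rw [SimpleGraph.top_adj]
          rintro rfl
          exact hrC hu
        have e4 : E (⊤ : SimpleGraph V) r C = (C.card : ℝ) * (tau (⊤ : SimpleGraph V) C : ℝ) := by
          unfold E
          rw [← e3]
          congr!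
        rw [e4, hC.2, ih (i + 1) (by omega) C hC.2 (by omega),
          ih (M + 1 - i) (by omega) (S \ C) e2 (by omega)]
      rw [sum_congr rfl h2, sum_const, card_powersetCard, hcard, nsmul_eq_mul]
      have h3 := choose_mul' (M + 1) i (by omega)
      rw [Nat.add_sub_cancel] at h3
      have h4 : (0 : ℝ) < a (M + 2) := by exact_mod_cast a_pos (by omega)
      unfold W
      rw [div_mul_cancel₀ _ h4.ne']
      linear_combination (((i + 1 : ℕ) : ℝ) * (a (i + 1) : ℝ) * (a (M + 1 - i) : ℝ)) * h3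
    rw [sum_congr rfl h1, ← mul_sum, ← sum_mul, sum_W, one_mul] at h
    have h5 : ((M + 1 : ℕ) : ℝ) ≠ 0 := by positivity
    have h6 := mul_left_cancel₀ h5 h
    exact_mod_cast h6

/-- averaged form of the main inequality -/
lemma main_avg (G : SimpleGraph V) {k : ℕ} (hk : 1 ≤ k) {S : Finset V} (hS : S.card = k + 1) :
    ((k + 1 : ℕ) : ℝ) * ((tau G S : ℝ) / (a (k + 1) : ℝ)) ≤
      ∑ v ∈ S, (tau G (S.erase v) : ℝ) / (a k : ℝ) := by
  have h := main G (k + 1) S hS
  rw [Nat.add_sub_cancel] at h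
  have h1 := sum_le_sum h
  rw [sum_const, nsmul_eq_mul, hS] at h1
  have h2 : ∑ r ∈ S, ∑ v ∈ S.erase r, (tau G (S.erase v) : ℝ) / (a k : ℝ) =
      ∑ v ∈ S, ∑ r ∈ S.erase v, (tau G (S.erase v) : ℝ) / (a k : ℝ) := by
    apply sum_comm'
    intro r v
    simp only [mem_erase]
    constructor
    · rintro ⟨h3, h4, h5⟩; exact ⟨⟨h4.symm, h3⟩, h5⟩
    · rintro ⟨⟨h3, h4⟩, h5⟩; exact ⟨h4, h3.symm, h5⟩
  rw [h2] at h1
  have h3 : ∀ v ∈ S, ∑ r ∈ S.erase v, (tau G (S.erase v) : ℝ) / (a k : ℝ) =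
      (k : ℝ) * ((tau G (S.erase v) : ℝ) / (a k : ℝ)) := by
    intro v hv
    rw [sum_const, nsmul_eq_mul, card_erase_of_mem hv, hS, Nat.add_sub_cancel]
  rw [sum_congr rfl h3, ← mul_sum] at h1
  have hk0 : (0 : ℝ) < k := by exact_mod_cast hk
  have h4 : (k : ℝ) * (((k + 1 : ℕ) : ℝ) * ((tau G S : ℝ) / (a (k + 1) : ℝ))) ≤
      (k : ℝ) * ∑ v ∈ S, (tau G (S.erase v) : ℝ) / (a k : ℝ) := by
    linarith
  exact le_of_mul_le_mul_left h4 hk0

/-- the number of subtrees of order `k` -/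
noncomputable def s (G : SimpleGraph V) (k : ℕ) : ℝ :=
  ∑ S ∈ powersetCard k (univ : Finset V), (tau G S : ℝ)

lemma s_eq (G : SimpleGraph V) (k : ℕ) :
    (Set.ncard {H : G.Subgraph | H.coe.IsTree ∧ H.verts.ncard = k} : ℝ) = s G k := by
  unfold s
  have h1 : {H : G.Subgraph | H.coe.IsTree ∧ H.verts.ncard = k} =
      ⋃ S ∈ powersetCard k (univ : Finset V),
        {H : G.Subgraph | H.coe.IsTree ∧ H.verts = (S : Set V)} := by
    ext H
    simp only [Set.mem_ofPred_eq, Set.mem_iUnion, mem_powersetCard, subset_univ, true_and,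
      exists_prop]
    constructor
    · rintro ⟨h2, h3⟩
      refine ⟨H.verts.toFinset, ?_, h2, by simp⟩
      rw [← h3, Set.ncard_eq_toFinset_card']
    · rintro ⟨S, h2, h3, h4⟩
      refine ⟨h3, ?_⟩
      rw [h4, Set.ncard_coe_finset, h2]
  have h2 : Set.ncard (⋃ S ∈ powersetCard k (univ : Finset V),
        {H : G.Subgraph | H.coe.IsTree ∧ H.verts = (S : Set V)}) =
      ∑ S ∈ powersetCard k (univ : Finset V), tau G S := by
    have : ∀ T : Finset (Finset V), Set.ncard (⋃ S ∈ T,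
        {H : G.Subgraph | H.coe.IsTree ∧ H.verts = (S : Set V)}) = ∑ S ∈ T, tau G S := by
      intro T
      induction T using Finset.induction_on with
      | empty => simp
      | insert S T hST ih =>
        rw [sum_insert hST, ← ih, set_biUnion_insert, Set.ncard_union_eq]
        · rfl
        · rw [Set.disjoint_left]
          rintro H ⟨h3, h4⟩ h5
          simp only [Set.mem_iUnion] at h5
          obtain ⟨S', h6, h7, h8⟩ := h5
          have : S = S' := by
            have h9 := h4.symm.trans h8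
            exact_mod_cast h9
          exact hST (this ▸ h6)
    exact this _
  rw [h1, h2]
  push_cast
  rfl

lemma s_nonneg (G : SimpleGraph V) (k : ℕ) : 0 ≤ s G k := by
  unfold s
  exact sum_nonneg (fun _ _ => Nat.cast_nonneg _)

lemma s_top {k : ℕ} (hk : 1 ≤ k) :
    s (⊤ : SimpleGraph V) k = ((Fintype.card V).choose k : ℝ) * (a k : ℝ) := by
  unfold s
  have h1 : ∀ S ∈ powersetCard k (univ : Finset V), (tau (⊤ : SimpleGraph V) S : ℝ) = (a k : ℝ) := by
    intro S hS
    rw [tau_top k S (mem_powersetCard.1 hS).2 hk]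
  rw [sum_congr rfl h1, sum_const, card_powersetCard, nsmul_eq_mul, card_univ]

lemma s_step (G : SimpleGraph V) {k : ℕ} (hk : 1 ≤ k) :
    ((k + 1 : ℕ) : ℝ) * (s G (k + 1) / (a (k + 1) : ℝ)) ≤
      ((Fintype.card V - k : ℕ) : ℝ) * (s G k / (a k : ℝ)) := by
  have h1 : ∑ S ∈ powersetCard (k + 1) (univ : Finset V),
      ((k + 1 : ℕ) : ℝ) * ((tau G S : ℝ) / (a (k + 1) : ℝ)) ≤
      ∑ S ∈ powersetCard (k + 1) (univ : Finset V),
        ∑ v ∈ S, (tau G (S.erase v) : ℝ) / (a k : ℝ) :=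
    sum_le_sum (fun S hS => main_avg G hk (mem_powersetCard.1 hS).2)
  rw [← mul_sum, ← sum_div] at h1
  have h2 : ∑ S ∈ powersetCard (k + 1) (univ : Finset V),
        ∑ v ∈ S, (tau G (S.erase v) : ℝ) / (a k : ℝ) =
      ∑ S ∈ powersetCard k (univ : Finset V), ∑ v ∈ Sᶜ, (tau G S : ℝ) / (a k : ℝ) := by
    rw [sum_sigma', sum_sigma']
    refine sum_bij' (fun x _ => ⟨x.1.erase x.2, x.2⟩) (fun x _ => ⟨insert x.2 x.1, x.2⟩)
      ?_ ?_ ?_ ?_ ?_
    · rintro ⟨S, v⟩ h
      simp only [mem_sigma, mem_powersetCard, subset_univ, true_and, mem_compl] at h ⊢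
      refine ⟨?_, by simp⟩
      rw [card_erase_of_mem h.2, h.1]; rfl
    · rintro ⟨S, v⟩ h
      simp only [mem_sigma, mem_powersetCard, subset_univ, true_and, mem_compl] at h ⊢
      exact ⟨by rw [card_insert_of_notMem h.2, h.1], mem_insert_self _ _⟩
    · rintro ⟨S, v⟩ h
      simp only [mem_sigma] at h
      simp only
      rw [insert_erase h.2]
    · rintro ⟨S, v⟩ h
      simp only [mem_sigma, mem_compl] at h
      simp only
      rw [erase_insert h.2]
    · rintro ⟨S, v⟩ _
      rfl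
  rw [h2] at h1
  have h3 : ∀ S ∈ powersetCard k (univ : Finset V), ∑ v ∈ Sᶜ, (tau G S : ℝ) / (a k : ℝ) =
      ((Fintype.card V - k : ℕ) : ℝ) * ((tau G S : ℝ) / (a k : ℝ)) := by
    intro S hS
    rw [sum_const, card_compl, (mem_powersetCard.1 hS).2, nsmul_eq_mul]
  rw [sum_congr rfl h3, ← mul_sum, ← sum_div] at h1
  exact h1

/-- weighted Chebyshev inequality -/
lemma cheb (T : Finset ℕ) (w x : ℕ → ℝ) (hw : ∀ i ∈ T, 0 ≤ w i)
    (hx : ∀ i ∈ T, ∀ j ∈ T, i ≤ j → x j ≤ x i) :
    (∑ i ∈ T, (i : ℝ) * (w i * x i)) * (∑ i ∈ T, w i) ≤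
      (∑ i ∈ T, (i : ℝ) * w i) * (∑ i ∈ T, w i * x i) := by
  have h1 : ∑ i ∈ T, ∑ j ∈ T, w i * w j * (((i : ℝ) - j) * (x i - x j)) ≤ 0 := by
    apply sum_nonpos
    intro i hi
    apply sum_nonpos
    intro j hj
    apply mul_nonpos_of_nonneg_of_nonpos (mul_nonneg (hw i hi) (hw j hj))
    rcases le_total i j with h | h
    · have := hx i hi j hj h
      have h2 : (i : ℝ) ≤ j := by exact_mod_cast h
      exact mul_nonpos_of_nonpos_of_nonneg (by linarith) (by linarith)
    · have := hx j hj i hi h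
      have h2 : (j : ℝ) ≤ i := by exact_mod_cast h
      exact mul_nonpos_of_nonneg_of_nonpos (by linarith) (by linarith)
  have h2 : ∑ i ∈ T, ∑ j ∈ T, w i * w j * (((i : ℝ) - j) * (x i - x j)) =
      2 * ((∑ i ∈ T, (i : ℝ) * (w i * x i)) * (∑ i ∈ T, w i)) -
        2 * ((∑ i ∈ T, (i : ℝ) * w i) * (∑ i ∈ T, w i * x i)) := by
    have e1 : ∀ i ∈ T, ∀ j ∈ T, w i * w j * (((i : ℝ) - j) * (x i - x j)) =
        ((i : ℝ) * (w i * x i)) * w j + w i * ((j : ℝ) * (w j * x j)) -
          (((i : ℝ) * w i) * (w j * x j) + (w i * x i) * ((j : ℝ) * w j)) := by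
      intro i _ j _; ring
    rw [sum_congr rfl (fun i hi => sum_congr rfl (e1 i hi))]
    simp only [sum_sub_distrib, sum_add_distrib, ← mul_sum, ← sum_mul]
    ring
  linarith

end Pool.Agent.W151.TreeIneq
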