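import Mathlib
import Pool.Agent.W151.TreeFinal

set_option autoImplicit false
set_option linter.unusedSectionVars false

/-! # The mean subtree order of a graph is at most that of the complete graph -/

namespace Pool.Agent.W151.TreeIneq

open Finset TreeRec TreeNum

attribute [local instance] Classical.propDecidable

variable {V : Type} [Fintype V]

lemma s_zero (G : SimpleGraph V) : s G 0 = 0 := by
  rw [← s_eq]
  have : {H : G.Subgraph | H.coe.IsTree ∧ H.verts.ncard = 0} = ∅ := by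
    ext H
    simp only [Set.mem_ofPred_eq, Set.mem_empty_iff_false, iff_false, not_and]
    intro h h0
    obtain ⟨⟨x, hx⟩⟩ := h.1.nonempty
    rw [Set.ncard_eq_zero (Set.toFinite _)] at h0
    rw [h0] at hx
    exact hx
  rw [this]
  simp

lemma s_one (G : SimpleGraph V) : s G 1 = Fintype.card V := by
  unfold s
  have : ∀ S ∈ powersetCard 1 (univ : Finset V), (tau G S : ℝ) = 1 := by
    intro S hS
    obtain ⟨v, rfl⟩ := card_eq_one.1 (mem_powersetCard.1 hS).2
    rw [tau_single]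
    simp
  rw [sum_congr rfl this, sum_const, card_powersetCard, card_univ, Nat.choose_one_right,
    nsmul_eq_mul, mul_one]

lemma ratio_anti (G : SimpleGraph V) {k : ℕ} (hk : 1 ≤ k) (hkn : k + 1 ≤ Fintype.card V) :
    s G (k + 1) / s (⊤ : SimpleGraph V) (k + 1) ≤ s G k / s (⊤ : SimpleGraph V) k := by
  rw [s_top (by omega : 1 ≤ k + 1), s_top hk]
  have h := s_step G hk
  set N := Fintype.card V with hN
  have hc : 0 < N.choose k := Nat.choose_pos (by omega)
  have hc' : 0 < N.choose (k + 1) := Nat.choose_pos hkn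
  have ha : 0 < a k := a_pos hk
  have ha' : 0 < a (k + 1) := a_pos (by omega)
  have h2 : (N.choose (k + 1) : ℝ) * ((k + 1 : ℕ) : ℝ) = (N.choose k : ℝ) * ((N - k : ℕ) : ℝ) := by
    exact_mod_cast Nat.choose_succ_right_eq N k
  have p1 : (0 : ℝ) < N.choose k := by exact_mod_cast hc
  have p2 : (0 : ℝ) < N.choose (k + 1) := by exact_mod_cast hc'
  have p3 : (0 : ℝ) < a k := by exact_mod_cast ha
  have p4 : (0 : ℝ) < a (k + 1) := by exact_mod_cast ha'
  have p5 : (0 : ℝ) < ((k + 1 : ℕ) : ℝ) := by positivity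
  have p6 : (0 : ℝ) < ((N - k : ℕ) : ℝ) := by
    have : 0 < N - k := by omega
    exact_mod_cast this
  set X := s G (k + 1) / (a (k + 1) : ℝ)
  set Y := s G k / (a k : ℝ)
  have e1 : s G (k + 1) / ((N.choose (k + 1) : ℝ) * (a (k + 1) : ℝ)) = X / (N.choose (k + 1) : ℝ) := by
    rw [div_div, mul_comm (a (k + 1) : ℝ)]
  have e2 : s G k / ((N.choose k : ℝ) * (a k : ℝ)) = Y / (N.choose k : ℝ) := by
    rw [div_div, mul_comm (a k : ℝ)]
  rw [e1, e2, div_le_div_iff₀ p2 p1]
  -- X * C(k) ≤ Y * C(k+1)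
  have h3 : (((k + 1 : ℕ) : ℝ) * X) * (N.choose k : ℝ) ≤ (((N - k : ℕ) : ℝ) * Y) * (N.choose k : ℝ) :=
    mul_le_mul_of_nonneg_right h p1.le
  have h4 : ((k + 1 : ℕ) : ℝ) * (X * (N.choose k : ℝ)) ≤ ((k + 1 : ℕ) : ℝ) * (Y * (N.choose (k + 1) : ℝ)) := by
    calc ((k + 1 : ℕ) : ℝ) * (X * (N.choose k : ℝ)) = (((k + 1 : ℕ) : ℝ) * X) * (N.choose k : ℝ) := by ring
      _ ≤ (((N - k : ℕ) : ℝ) * Y) * (N.choose k : ℝ) := h3
      _ = Y * ((N.choose k : ℝ) * ((N - k : ℕ) : ℝ)) := by ring
      _ = Y * ((N.choose (k + 1) : ℝ) * ((k + 1 : ℕ) : ℝ)) := by rw [h2]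
      _ = ((k + 1 : ℕ) : ℝ) * (Y * (N.choose (k + 1) : ℝ)) := by ring
  exact le_of_mul_le_mul_left h4 p5

lemma ratio_anti' (G : SimpleGraph V) {i : ℕ} (hi : 1 ≤ i) : ∀ j, i ≤ j → j ≤ Fintype.card V →
    s G j / s (⊤ : SimpleGraph V) j ≤ s G i / s (⊤ : SimpleGraph V) i := by
  intro j hij
  induction j, hij using Nat.le_induction with
  | base => intro _; exact le_rfl
  | succ j hij ih =>
    intro h
    exact (ratio_anti G (by omega) h).trans (ih (by omega))

theorem final (G : SimpleGraph V) :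
    (∑ k ∈ range (Fintype.card V + 1), (k : ℝ) * s G k) / (∑ k ∈ range (Fintype.card V + 1), s G k) ≤
    (∑ k ∈ range (Fintype.card V + 1), (k : ℝ) * s (⊤ : SimpleGraph V) k) /
      (∑ k ∈ range (Fintype.card V + 1), s (⊤ : SimpleGraph V) k) := by
  rcases Nat.eq_zero_or_pos (Fintype.card V) with h0 | hpos
  · rw [h0]
    simp
  · set N := Fintype.card V with hN
    have key : ∀ (f : ℕ → ℝ), f 0 = 0 → ∑ k ∈ range (N + 1), f k = ∑ k ∈ Icc 1 N, f k := by
      intro f hf
      rw [sum_range_succ', hf, add_zero]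
      refine sum_bij' (fun i _ => i + 1) (fun i _ => i - 1) ?_ ?_ ?_ ?_ ?_
      · intro i hi
        simp only [mem_range] at hi
        simp only [mem_Icc]
        omega
      · intro i hi
        simp only [mem_Icc] at hi
        simp only [mem_range]
        omega
      · intro i hi
        simp
      · intro i hi
        rw [mem_Icc] at hi
        exact Nat.sub_add_cancel hi.1
      · intro i hi; rfl
    rw [key (fun k => (k : ℝ) * s G k) (by simp), key (fun k => s G k) (s_zero G),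
      key (fun k => (k : ℝ) * s (⊤ : SimpleGraph V) k) (by simp),
      key (fun k => s (⊤ : SimpleGraph V) k) (s_zero _)]
    have pos : ∀ H : SimpleGraph V, 0 < ∑ k ∈ Icc 1 N, s H k := by
      intro H
      have h1 : s H 1 ≤ ∑ k ∈ Icc 1 N, s H k :=
        single_le_sum (fun k _ => s_nonneg H k) (by simp only [mem_Icc]; omega)
      rw [s_one] at h1
      have : (0 : ℝ) < Fintype.card V := by exact_mod_cast hpos
      linarith
    rw [div_le_div_iff₀ (pos G) (pos ⊤)]
    have hw : ∀ i ∈ Icc 1 N, 0 < s (⊤ : SimpleGraph V) i := by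
      intro i hi
      rw [mem_Icc] at hi
      rw [s_top hi.1]
      have h1 : 0 < N.choose i := Nat.choose_pos hi.2
      have h2 : 0 < a i := a_pos hi.1
      have : 0 < N.choose i * a i := Nat.mul_pos h1 h2
      exact_mod_cast this
    have h := cheb (Icc 1 N) (s (⊤ : SimpleGraph V)) (fun i => s G i / s (⊤ : SimpleGraph V) i)
      (fun i hi => (hw i hi).le)
      (fun i hi j hj hij => ratio_anti' G (mem_Icc.1 hi).1 j hij (mem_Icc.1 hj).2)
    have e : ∀ i ∈ Icc 1 N, s (⊤ : SimpleGraph V) i * (s G i / s (⊤ : SimpleGraph V) i) = s G i :=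
      fun i hi => mul_div_cancel₀ _ (hw i hi).ne'
    have e1 : ∑ i ∈ Icc 1 N, (i : ℝ) * (s (⊤ : SimpleGraph V) i * (s G i / s (⊤ : SimpleGraph V) i)) =
        ∑ i ∈ Icc 1 N, (i : ℝ) * s G i := sum_congr rfl (fun i hi => by rw [e i hi])
    have e2 : ∑ i ∈ Icc 1 N, (s (⊤ : SimpleGraph V) i * (s G i / s (⊤ : SimpleGraph V) i)) =
        ∑ i ∈ Icc 1 N, s G i := sum_congr rfl (fun i hi => by rw [e i hi])
    rw [e1, e2] at h
    exact h

end Pool.Agent.W151.TreeIneq
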